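import Pool.Agent.Lib.MP_235cc9_lc.PTNet

/-!
# MP_235cc9_lc: Lombardi drawability with rotation system is `∃ℝ`-hard for maximum degree 16

The proof reduces the existential theory of the reals to Lombardi drawability of graphs of maximum
degree at most 16. All vertices of the network that is built have degree 16 (missing neighbours are
leaves), so the directions of the edges at a vertex are known up to a rotation, and an edge amounts
to one equation between the positions and the rotations of its two ends. These equations are
invariant under Möbius transformations. When one vertex is sent to infinity the neighbours of that
vertex get parallel frames, and this spreads over a grid of reference vertices. Columns (vertical
lines) of this grid carry the real numbers, and gates force midpoint and square relations between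
the abscissae of columns, which suffices for addition and multiplication. Conversely, a drawing is
built with all free parameters in general position.
-/

open Pool.Agent.Lib.MP_235cc9_lc in
/-- For every `Δ ≥ 16`, deciding whether a graph of maximum degree at most `Δ` with a rotation
system has a Lombardi drawing that respects the rotation system is `∃ℝ`-hard. -/
theorem Pool.Agent.Results.MP_235cc9_lc.BoundedDegreeHard.result (Δ : ℕ) (h : 16 ≤ Δ) :
    ERHard (lombardi Δ) :=
  fun _ hQ => hQ.trans (reduces_lombardi h)
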